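import Pool.Agent.Helper16.KL.P0
import Pool.Agent.Helper73.KL.Restr
import Pool.Agent.Helper16.FF7

set_option autoImplicit false
set_option linter.style.haveILetI false
set_option linter.unusedSectionVars false

/-!
Project KL (MP_0b9e0b_ag), KL-12-1 and KL-12-2: the places above a place in a finite separable
extension, the fundamental identity, and the restriction of a place.
-/

namespace Pool.Agent.Helper41.KL

open Pool.Agent.Helper16 Pool.Agent.Helper16.KLP Pool.Agent.Helper73.KL IsDedekindDomain

/-- KL-12-2. -/
theorem stRes : StRes := by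
  intro K L M _ _ _ _ _ _ _ _ v
  have h : ∃ a : L, v.ord (algebraMap L M a) ≠ 0 := by
    by_contra hcon
    push Not at hcon
    -- `v` is trivial on `L`, hence on `M`
    obtain ⟨y, hy⟩ := v.surj (WithZero.exp (1 : ℤ))
    have hy1 : 1 < v.val y := by
      rw [hy, ← WithZero.exp_zero, WithZero.exp_lt_exp]
      norm_num
    have hint : IsIntegral L y := (Algebra.IsAlgebraic.isAlgebraic y).isIntegral
    have hmem : y ∈ v.val.valuationSubring := by
      have h1 : IsIntegral v.val.valuationSubring y := by
        obtain ⟨P, hP, hP0⟩ := hint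
        have hval : ∀ a : L, algebraMap L M a ∈ v.val.valuationSubring := by
          intro a
          by_cases ha : a = 0
          · rw [ha, map_zero]
            exact zero_mem _
          · have h2 := (v.ord_eq_zero_iff ((map_ne_zero (algebraMap L M)).2 ha)).1 (hcon a)
            exact h2.le
        let φ : L →+* v.val.valuationSubring :=
          { toFun := fun a => ⟨algebraMap L M a, hval a⟩
            map_one' := Subtype.ext (map_one _)
            map_mul' := fun a b => Subtype.ext (map_mul _ _ _)
            map_zero' := Subtype.ext (map_zero _)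
            map_add' := fun a b => Subtype.ext (map_add _ _ _) }
        refine ⟨P.map φ, hP.map φ, ?_⟩
        rw [Polynomial.eval₂_map]
        exact hP0
      obtain ⟨z, hz⟩ := (IsIntegrallyClosed.isIntegral_iff (R := v.val.valuationSubring)
        (K := M)).1 h1
      rw [← hz]
      exact z.2
    have h3 : v.val y ≤ 1 := hmem
    exact absurd hy1 (not_lt.2 h3)
  obtain ⟨w, e, he, hw⟩ := exists_restrict v h
  exact ⟨w, e, he, hw⟩

section abs

variable (A B : Type) [CommRing A] [IsDedekindDomain A] [CommRing B] [IsDomain B] [Algebra A B]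

theorem finite_primesOver [IsDedekindDomain B] [Module.Finite A B] (h : FaithfulSMul A B)
    (p : Ideal A) [p.IsMaximal] : Finite (p.primesOver B) := inferInstance

theorem flat_of_faithful (h : FaithfulSMul A B) : Module.Flat A B := inferInstance

theorem fin_abs (A L M : Type) [CommRing A] [IsDomain A] [IsDedekindDomain A] [Field L] [Field M]
    [Algebra A L] [IsFractionRing A L] [Algebra L M] [Algebra A M] [IsScalarTower A L M]
    [FiniteDimensional L M] [Algebra.IsSeparable L M] : Module.Finite A (integralClosure A M) :=
  IsIntegralClosure.finite A L M (integralClosure A M)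

theorem faith_abs (A L M : Type) [CommRing A] [IsDomain A] [Field L] [Field M]
    [Algebra A L] [IsFractionRing A L] [Algebra L M] [Algebra A M] [IsScalarTower A L M] :
    FaithfulSMul A (integralClosure A M) := by
  refine (faithfulSMul_iff_algebraMap_injective A (integralClosure A M)).2 ?_
  intro a b h
  have h1 : algebraMap A M a = algebraMap A M b := congrArg Subtype.val h
  rw [IsScalarTower.algebraMap_apply A L M, IsScalarTower.algebraMap_apply A L M] at h1
  exact IsFractionRing.injective A L ((algebraMap L M).injective h1)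

theorem ef_abs (A L M : Type) [CommRing A] [IsDomain A] [IsDedekindDomain A] [Field L] [Field M]
    [Algebra A L] [IsFractionRing A L] [Algebra L M] [Algebra A M] [IsScalarTower A L M]
    [FiniteDimensional L M] [Algebra.IsSeparable L M] (p : Ideal A) [p.IsMaximal]
    [Fintype (p.primesOver (integralClosure A M))] :
    ∑ q : p.primesOver (integralClosure A M), q.1.ramificationIdx A * q.1.inertiaDeg A =
      Module.finrank L M := by
  haveI : IsDedekindDomain (integralClosure A M) := integralClosure.isDedekindDomain A L M
  haveI : IsFractionRing (integralClosure A M) M :=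
    integralClosure.isFractionRing_of_finite_extension L M
  haveI : Module.Finite A (integralClosure A M) := fin_abs A L M
  haveI : FaithfulSMul A (integralClosure A M) := faith_abs A L M
  have h1 := Ideal.sum_ramification_inertia_eq_finrank p (integralClosure A M)
  have h2 := IsFractionRing.finrank_eq A L (integralClosure A M) M
  rw [h2, ← h1]

end abs

section EF

variable {K L : Type} (M : Type) [Field K] [Field L] [Field M] [Algebra K L] [Algebra K M]
  [Algebra L M] [IsScalarTower K L M] [FiniteDimensional L M] [Algebra.IsSeparable L M]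
  (w : Place K L)

/-- The integral closure of the ring of `w` in `M`. -/
abbrev Bw : Subalgebra w.ring M := integralClosure w.ring M

noncomputable local instance instAlgB : Algebra w.ring (Bw M w) := inferInstance

theorem ded_B : IsDedekindDomain (Bw M w) :=
  integralClosure.isDedekindDomain w.ring L M

theorem frac_B : IsFractionRing (Bw M w) M :=
  integralClosure.isFractionRing_of_finite_extension L M

theorem fin_B : Module.Finite w.ring (Bw M w) := fin_abs w.ring L M

noncomputable local instance instModB : Module w.ring (Bw M w) := inferInstance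

noncomputable local instance instSMulB : SMul w.ring (Bw M w) := inferInstance

theorem faith_B : FaithfulSMul w.ring (Bw M w) := faith_abs w.ring L M

/-- The place attached to a prime of the integral closure. -/
noncomputable def placeOf (P : HeightOneSpectrum (Bw M w)) : Place K M :=
  haveI := ded_B M w
  haveI := frac_B M w
  { val := P.valuation M
    surj := P.valuation_surjective M
    triv := by
      intro a ha
      have hmem : ∀ c : K, algebraMap K M c = algebraMap w.ring M (algebraMap K w.ring c) := by
        intro c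
        rw [IsScalarTower.algebraMap_apply K L M]
        rfl
      have h1 : IsUnit (algebraMap w.ring (Bw M w) (algebraMap K w.ring a)) := by
        apply IsUnit.map
        apply IsUnit.map
        exact isUnit_iff_ne_zero.2 ha
      have h2 := P.valuation_of_algebraMap (K := M)
        (algebraMap w.ring (Bw M w) (algebraMap K w.ring a))
      have h3 : P.intValuation (algebraMap w.ring (Bw M w) (algebraMap K w.ring a)) = 1 := by
        rw [HeightOneSpectrum.intValuation_eq_one_iff]
        intro hm
        exact P.isPrime.ne_top (Ideal.eq_top_of_isUnit_mem _ hm h1)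
      rw [h3] at h2
      rw [hmem]
      exact h2 }

theorem placeOf_val_le (P : HeightOneSpectrum (Bw M w)) (b : Bw M w) :
    (placeOf M w P).val (b : M) ≤ 1 := by
  haveI := ded_B M w
  haveI := frac_B M w
  exact P.valuation_le_one (K := M) b

theorem placeOf_val_lt (P : HeightOneSpectrum (Bw M w)) (b : Bw M w) :
    (placeOf M w P).val (b : M) < 1 ↔ b ∈ P.asIdeal := by
  haveI := ded_B M w
  haveI := frac_B M w
  exact P.valuation_lt_one_iff_mem (K := M) b

theorem placeOf_injective : Function.Injective (placeOf M w) := by
  intro P Q h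
  apply HeightOneSpectrum.ext
  ext b
  rw [← placeOf_val_lt M w P, ← placeOf_val_lt M w Q, h]

/-- A place above `w` is at most one on the integral closure. -/
theorem val_le_of_above (v : Place K M) (m : ℕ) (h : Above w v m) (b : Bw M w) :
    v.val (b : M) ≤ 1 := by
  have hval : ∀ a : w.ring, algebraMap L M (a : L) ∈ v.val.valuationSubring := by
    intro a
    by_cases ha : (a : L) = 0
    · rw [ha, map_zero]
      exact zero_mem _
    · have h1 := h.2 (a : L)
      have h2 := (w.ord_nonneg_iff ha).2 a.2
      have h3 : 0 ≤ v.ord (algebraMap L M (a : L)) := by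
        rw [h1]
        positivity
      exact (v.ord_nonneg_iff ((map_ne_zero (algebraMap L M)).2 ha)).1 h3
  have h1 : IsIntegral v.val.valuationSubring (b : M) := by
    obtain ⟨P, hP, hP0⟩ := b.2
    let φ : w.ring →+* v.val.valuationSubring :=
      { toFun := fun a => ⟨algebraMap L M (a : L), hval a⟩
        map_one' := Subtype.ext (map_one _)
        map_mul' := fun a b => Subtype.ext (map_mul (algebraMap L M) _ _)
        map_zero' := Subtype.ext (map_zero _)
        map_add' := fun a b => Subtype.ext (map_add (algebraMap L M) _ _) }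
    refine ⟨P.map φ, hP.map φ, ?_⟩
    rw [Polynomial.eval₂_map]
    exact hP0
  obtain ⟨z, hz⟩ := (IsIntegrallyClosed.isIntegral_iff (R := v.val.valuationSubring)
    (K := M)).1 h1
  rw [← hz]
  exact z.2

/-- A place above `w` comes from a prime. -/
theorem exists_placeOf (v : Place K M) (m : ℕ) (h : Above w v m) : ∃ P, placeOf M w P = v := by
  haveI := ded_B M w
  haveI := frac_B M w
  let P : Ideal (Bw M w) :=
    { carrier := {b | v.val (b : M) < 1}
      add_mem' := fun {a b} ha hb => v.val.map_add_lt ha hb
      zero_mem' := by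
        change v.val ((0 : Bw M w) : M) < 1
        simp
      smul_mem' := by
        intro c b hb
        change v.val ((c * b : Bw M w) : M) < 1
        have h1 : ((c * b : Bw M w) : M) = (c : M) * (b : M) := rfl
        rw [h1, map_mul, mul_comm]
        exact mul_lt_one_of_lt_of_le hb (val_le_of_above M w v m h c) }
  have hmem : ∀ b : Bw M w, b ∈ P ↔ v.val (b : M) < 1 := fun b => Iff.rfl
  have hprime : P.IsPrime := by
    refine ⟨?_, ?_⟩
    · rw [Ideal.ne_top_iff_one, hmem]
      have h1 : ((1 : Bw M w) : M) = 1 := rfl
      rw [h1, map_one]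
      exact lt_irrefl _
    · intro a b hab
      rw [hmem] at hab
      have h1 : ((a * b : Bw M w) : M) = (a : M) * (b : M) := rfl
      rw [h1, map_mul] at hab
      by_contra hcon
      rw [not_or, hmem, hmem, not_lt, not_lt] at hcon
      exact absurd hab (not_lt.2 (one_le_mul hcon.1 hcon.2))
  have hbot : P ≠ ⊥ := by
    obtain ⟨π, hπ0, hπ, hπ1⟩ := exists_unif w
    intro h0
    have h2 : algebraMap w.ring (Bw M w) ⟨π, hπ1.le⟩ ∈ P := by
      rw [hmem]
      have h3 : ((algebraMap w.ring (Bw M w) ⟨π, hπ1.le⟩ : Bw M w) : M) = algebraMap L M π := rfl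
      rw [h3, ← v.ord_pos_iff ((map_ne_zero (algebraMap L M)).2 hπ0), h.2, hπ, mul_one]
      exact_mod_cast h.1
    rw [h0, Ideal.mem_bot] at h2
    have h4 := congrArg (Subtype.val) h2
    have h5 : algebraMap L M π = 0 := h4
    exact hπ0 ((map_eq_zero (algebraMap L M)).1 h5)
  let Q : HeightOneSpectrum (Bw M w) := ⟨P, hprime, hbot⟩
  refine ⟨Q, ?_⟩
  apply Place.ext_val
  symm
  apply valuation_eq_of_le _ _ v.surj (placeOf M w Q).surj
  intro x hx
  obtain ⟨n, d, hnd⟩ := Q.exists_primeCompl_mul_eq_of_integer (K := M) x hx
  have hd : v.val (algebraMap (Bw M w) M d) = 1 := by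
    refine le_antisymm (val_le_of_above M w v m h d.1) ?_
    by_contra hlt
    rw [not_le] at hlt
    exact d.2 hlt
  have h1 := congrArg v.val hnd
  rw [map_mul, hd, mul_one] at h1
  rw [h1]
  exact val_le_of_above M w v m h n

theorem liesOver_B (P : HeightOneSpectrum (Bw M w)) :
    P.asIdeal.LiesOver (IsLocalRing.maximalIdeal w.ring) := by
  haveI := fin_B M w
  haveI : P.asIdeal.IsMaximal := by
    haveI := ded_B M w
    exact P.isMaximal
  have h1 : (P.asIdeal.under w.ring).IsMaximal := by
    haveI : Algebra.IsIntegral w.ring (Bw M w) := inferInstance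
    exact Ideal.IsMaximal.under w.ring P.asIdeal
  refine ⟨?_⟩
  exact (IsLocalRing.eq_maximalIdeal h1).symm

theorem map_unif (π : L) (hπ1 : w.val π < 1) (hπ : w.ord π = 1) :
    IsLocalRing.maximalIdeal w.ring = Ideal.span {(⟨π, hπ1.le⟩ : w.ring)} := by
  have hπ0 : π ≠ 0 := by
    rintro rfl
    rw [w.ord_zero] at hπ
    exact zero_ne_one hπ
  apply le_antisymm
  · intro a ha
    rw [Place.mem_maximalIdeal] at ha
    rw [Ideal.mem_span_singleton]
    by_cases ha0 : (a : L) = 0
    · have : a = 0 := Subtype.ext ha0
      rw [this]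
      exact dvd_zero _
    · have h1 := (w.ord_pos_iff ha0).2 ha
      have h2 : 0 ≤ w.ord ((a : L) * π⁻¹) := by
        rw [w.ord_mul ha0 (inv_ne_zero hπ0), w.ord_inv, hπ]
        omega
      have h3 := (w.ord_nonneg_iff (mul_ne_zero ha0 (inv_ne_zero hπ0))).1 h2
      refine ⟨⟨(a : L) * π⁻¹, h3⟩, ?_⟩
      apply Subtype.ext
      change (a : L) = π * ((a : L) * π⁻¹)
      field_simp
  · rw [Ideal.span_singleton_le_iff_mem, Place.mem_maximalIdeal]
    exact hπ1

theorem above_placeOf (P : HeightOneSpectrum (Bw M w)) :
    Above w (placeOf M w P) (P.asIdeal.ramificationIdx w.ring) := by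
  haveI := ded_B M w
  haveI := frac_B M w
  haveI := fin_B M w
  haveI := liesOver_B M w P
  haveI := faith_B M w
  haveI := P.isPrime
  obtain ⟨π, hπ0, hπ, hπ1⟩ := exists_unif w
  have hmap : (IsLocalRing.maximalIdeal w.ring).map (algebraMap w.ring (Bw M w)) =
      Ideal.span {algebraMap w.ring (Bw M w) ⟨π, hπ1.le⟩} := by
    rw [map_unif w π hπ1 hπ, Ideal.map_span, Set.image_singleton]
  have hne0 : algebraMap w.ring (Bw M w) ⟨π, hπ1.le⟩ ≠ 0 := by
    intro h2
    have h4 := congrArg (Subtype.val) h2
    have h5 : algebraMap L M π = 0 := h4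
    exact hπ0 ((map_eq_zero (algebraMap L M)).1 h5)
  have hne : (IsLocalRing.maximalIdeal w.ring).map (algebraMap w.ring (Bw M w)) ≠ ⊥ := by
    rw [hmap]
    simpa using hne0
  have hordπ : (placeOf M w P).ord (algebraMap L M π) = (P.asIdeal.ramificationIdx w.ring : ℤ) := by
    rw [Ideal.IsDedekindDomain.ramificationIdx_eq_multiplicity (IsLocalRing.maximalIdeal w.ring)
      P.asIdeal hne, hmap]
    have h1 := P.valuation_of_algebraMap (K := M) (algebraMap w.ring (Bw M w) ⟨π, hπ1.le⟩)
    rw [P.intValuation_eq_exp_neg_multiplicity hne0] at h1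
    have h2 : (placeOf M w P).val (algebraMap L M π) = WithZero.exp (-(multiplicity P.asIdeal
        (Ideal.span {algebraMap w.ring (Bw M w) ⟨π, hπ1.le⟩}) : ℤ)) := h1
    rw [Place.ord, h2, WithZero.log_exp, neg_neg]
  have hle : ∀ a : L, w.val a ≤ 1 → (placeOf M w P).val (algebraMap L M a) ≤ 1 := by
    intro a ha
    exact placeOf_val_le M w P (algebraMap w.ring (Bw M w) ⟨a, ha⟩)
  have hunit : ∀ a : L, w.val a = 1 → (placeOf M w P).val (algebraMap L M a) = 1 := by
    intro a ha
    refine le_antisymm (hle a ha.le) ?_
    have h1 := hle a⁻¹ (by rw [map_inv₀, ha, inv_one])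
    have ha0 : a ≠ 0 := by
      rintro rfl
      rw [map_zero] at ha
      exact zero_ne_one ha
    have h2 : (placeOf M w P).val (algebraMap L M a) ≠ 0 := by
      rw [Valuation.ne_zero_iff]
      exact (map_ne_zero (algebraMap L M)).2 ha0
    rw [map_inv₀, map_inv₀] at h1
    exact (inv_le_one₀ (zero_lt_iff.2 h2)).1 h1
  have hpos : 0 < (placeOf M w P).ord (algebraMap L M π) := by
    rw [(placeOf M w P).ord_pos_iff ((map_ne_zero (algebraMap L M)).2 hπ0)]
    have h1 : algebraMap w.ring (Bw M w) ⟨π, hπ1.le⟩ ∈ P.asIdeal := by
      have h2 : IsLocalRing.maximalIdeal w.ring ≤ P.asIdeal.under w.ring := by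
        rw [← P.asIdeal.over_def (IsLocalRing.maximalIdeal w.ring)]
      have h3 : (⟨π, hπ1.le⟩ : w.ring) ∈ P.asIdeal.under w.ring := by
        apply h2
        rw [Place.mem_maximalIdeal]
        exact hπ1
      exact h3
    exact (placeOf_val_lt M w P _).2 h1
  refine ⟨?_, ?_⟩
  · rw [hordπ] at hpos
    exact_mod_cast hpos
  · intro a
    by_cases ha : a = 0
    · rw [ha, map_zero, Place.ord_zero, Place.ord_zero, mul_zero]
    · -- `a = u π ^ n`
      have h1 : ∀ n : ℕ, ∀ b : L, b ≠ 0 → w.ord b = n →
          (placeOf M w P).ord (algebraMap L M b) =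
            (P.asIdeal.ramificationIdx w.ring : ℤ) * n := by
        intro n
        induction n with
        | zero =>
          intro b hb hbn
          have h2 := hunit b ((w.ord_eq_zero_iff hb).1 hbn)
          rw [((placeOf M w P).ord_eq_zero_iff ((map_ne_zero (algebraMap L M)).2 hb)).2 h2]
          simp
        | succ n ih =>
          intro b hb hbn
          have h3 : w.ord (b * π⁻¹) = n := by
            rw [w.ord_mul hb (inv_ne_zero hπ0), w.ord_inv, hbn, hπ]
            push_cast
            ring
          have h4 := ih (b * π⁻¹) (mul_ne_zero hb (inv_ne_zero hπ0)) h3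
          have h5 : b = (b * π⁻¹) * π := by field_simp
          conv_lhs => rw [h5]
          rw [map_mul, (placeOf M w P).ord_mul
            ((map_ne_zero (algebraMap L M)).2 (mul_ne_zero hb (inv_ne_zero hπ0)))
            ((map_ne_zero (algebraMap L M)).2 hπ0), h4, hordπ]
          push_cast
          ring
      rcases Int.eq_nat_or_neg (w.ord a) with ⟨n, hn | hn⟩
      · rw [h1 n a ha hn, hn]
      · have h6 : w.ord a⁻¹ = n := by rw [w.ord_inv, hn, neg_neg]
        have h7 := h1 n a⁻¹ (inv_ne_zero ha) h6
        rw [map_inv₀, Place.ord_inv] at h7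
        rw [hn]
        linarith

/-- The ring of `w` maps to the ring of a place above `w`. -/
noncomputable def ringHom (v : Place K M) (m : ℕ) (h : Above w v m) : w.ring →ₐ[K] v.ring where
  toFun := fun a => ⟨algebraMap L M (a : L), by
    change v.val (algebraMap L M (a : L)) ≤ 1
    by_cases ha : (a : L) = 0
    · rw [ha, map_zero, map_zero]
      exact zero_le_one
    · rw [← v.ord_nonneg_iff ((map_ne_zero (algebraMap L M)).2 ha), h.2]
      have := (w.ord_nonneg_iff ha).2 a.2
      positivity⟩
  map_one' := Subtype.ext (map_one (algebraMap L M))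
  map_mul' := fun a b => Subtype.ext (map_mul (algebraMap L M) _ _)
  map_zero' := Subtype.ext (map_zero (algebraMap L M))
  map_add' := fun a b => Subtype.ext (map_add (algebraMap L M) _ _)
  commutes' := fun c => Subtype.ext (IsScalarTower.algebraMap_apply K L M c).symm

theorem ringHom_coe (v : Place K M) (m : ℕ) (h : Above w v m) (a : w.ring) :
    ((ringHom M w v m h a : v.ring) : M) = algebraMap L M (a : L) := rfl

theorem ringHom_local (v : Place K M) (m : ℕ) (h : Above w v m) :
    IsLocalHom (ringHom M w v m h).toRingHom := by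
  refine ⟨fun a ha => ?_⟩
  have h1 : IsUnit (ringHom M w v m h a) := ha
  rw [Place.isUnit_iff, ringHom_coe] at h1
  rw [Place.isUnit_iff]
  have ha0 : (a : L) ≠ 0 := by
    intro h0
    rw [h0, map_zero, map_zero] at h1
    exact zero_ne_one h1
  rw [← v.ord_eq_zero_iff ((map_ne_zero (algebraMap L M)).2 ha0), h.2] at h1
  rw [← w.ord_eq_zero_iff ha0]
  rcases mul_eq_zero.1 h1 with h2 | h2
  · have := h.1
    omega
  · exact h2

/-- The residue field of `w` maps to the residue field of a place above `w`. -/
noncomputable def resHom (v : Place K M) (m : ℕ) (h : Above w v m) :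
    w.resField →ₐ[K] v.resField :=
  haveI := ringHom_local M w v m h
  { IsLocalRing.ResidueField.map (ringHom M w v m h).toRingHom with
    commutes' := fun c => by
      change IsLocalRing.ResidueField.map (ringHom M w v m h).toRingHom
        (IsLocalRing.residue w.ring (algebraMap K w.ring c)) = _
      rw [IsLocalRing.ResidueField.map_residue]
      change IsLocalRing.residue v.ring (ringHom M w v m h (algebraMap K w.ring c)) = _
      rw [AlgHom.commutes]
      rfl }

theorem resHom_residue (v : Place K M) (m : ℕ) (h : Above w v m) (a : w.ring) :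
    resHom M w v m h (IsLocalRing.residue w.ring a) =
      IsLocalRing.residue v.ring (ringHom M w v m h a) := rfl

theorem mem_ring_of_above (v : Place K M) (m : ℕ) (h : Above w v m) {a : L} (ha : a ∈ w.ring) :
    algebraMap L M a ∈ v.ring := (ringHom M w v m h ⟨a, ha⟩).2

theorem resHom_res (v : Place K M) (m : ℕ) (h : Above w v m) {a : L} (ha : a ∈ w.ring) :
    resHom M w v m h (w.res a) = v.res (algebraMap L M a) := by
  rw [w.res_of_mem ha, resHom_residue, v.res_of_mem (mem_ring_of_above M w v m h ha)]
  rfl

theorem resL_eq (v : Place K M) (m : ℕ) (h : Above w v m) :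
    resL K L v = (resHom M w v m h).fieldRange := by
  apply le_antisymm
  · unfold resL
    rw [IntermediateField.adjoin_le_iff]
    rintro _ ⟨⟨a, ha⟩, rfl⟩
    have ha' : a ∈ w.ring := by
      change w.val a ≤ 1
      by_cases h0 : a = 0
      · rw [h0, map_zero]
        exact zero_le_one
      · rw [← w.ord_nonneg_iff h0]
        rw [← v.ord_nonneg_iff ((map_ne_zero (algebraMap L M)).2 h0), h.2] at ha
        have := h.1
        by_contra hneg
        rw [not_le] at hneg
        have h3 : (m : ℤ) * w.ord a < 0 := mul_neg_of_pos_of_neg (by exact_mod_cast this) hneg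
        omega
    exact ⟨w.res a, resHom_res M w v m h ha'⟩
  · rintro _ ⟨b, rfl⟩
    obtain ⟨a, ha, rfl⟩ := w.res_surj b
    apply IntermediateField.subset_adjoin
    have h1 : v.val (algebraMap L M a) ≤ 1 := mem_ring_of_above M w v m h ha
    refine ⟨⟨a, h1⟩, ?_⟩
    exact (resHom_res M w v m h ha).symm

theorem exists_resEquivB (P : HeightOneSpectrum (Bw M w)) :
    ∃ j : (Bw M w ⧸ P.asIdeal) ≃+* (placeOf M w P).resField,
      ∀ b : Bw M w, j (Ideal.Quotient.mk P.asIdeal b) =
        IsLocalRing.residue (placeOf M w P).ring ⟨(b : M), placeOf_val_le M w P b⟩ := by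
  haveI := ded_B M w
  haveI := frac_B M w
  let v := placeOf M w P
  let ψ : Bw M w →+* v.resField :=
    { toFun := fun b => IsLocalRing.residue v.ring ⟨(b : M), placeOf_val_le M w P b⟩
      map_one' := map_one _
      map_mul' := fun a b => by rw [← map_mul]; rfl
      map_zero' := map_zero _
      map_add' := fun a b => by rw [← map_add]; rfl }
  have hψ : ∀ b, ψ b = 0 ↔ b ∈ P.asIdeal := by
    intro b
    change IsLocalRing.residue v.ring _ = 0 ↔ _
    rw [IsLocalRing.residue_eq_zero_iff, Place.mem_maximalIdeal]
    exact placeOf_val_lt M w P b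
  have hsurj : Function.Surjective ψ := by
    intro r
    obtain ⟨⟨x, hx⟩, rfl⟩ := IsLocalRing.residue_surjective r
    obtain ⟨n, d, hnd⟩ := P.exists_primeCompl_mul_eq_of_integer (K := M) x hx
    obtain ⟨e, i, hi, he⟩ := P.isMaximal.exists_inv d.2
    refine ⟨n * e, ?_⟩
    change IsLocalRing.residue v.ring _ = IsLocalRing.residue v.ring _
    rw [← sub_eq_zero, ← map_sub, IsLocalRing.residue_eq_zero_iff, Place.mem_maximalIdeal]
    have h1 : ((n * e : Bw M w) : M) = (n : M) * (e : M) := rfl
    have h2 : (e : M) * ((d : Bw M w) : M) + (i : M) = 1 := by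
      have := congrArg (Subtype.val) he
      exact this
    have h3 : x * ((d : Bw M w) : M) = (n : M) := hnd
    have h4 : ((n * e : Bw M w) : M) - x = - (x * (i : M)) := by
      rw [h1, ← h3]
      linear_combination x * h2
    change v.val (((n * e : Bw M w) : M) - x) < 1
    rw [h4, Valuation.map_neg, map_mul, mul_comm]
    exact mul_lt_one_of_lt_of_le ((placeOf_val_lt M w P i).2 hi) hx
  have hker : RingHom.ker ψ = P.asIdeal := by
    ext b
    exact hψ b
  refine ⟨(Ideal.quotEquivOfEq hker.symm).trans (RingHom.quotientKerEquivOfSurjective hsurj),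
    fun b => rfl⟩

theorem finrank_resL (P : HeightOneSpectrum (Bw M w)) :
    Module.finrank (resL K L (placeOf M w P)) (placeOf M w P).resField =
      P.asIdeal.inertiaDeg w.ring := by
  haveI := ded_B M w
  haveI := frac_B M w
  haveI := fin_B M w
  haveI := liesOver_B M w P
  haveI := P.isPrime
  haveI : P.asIdeal.IsMaximal := P.isMaximal
  have hab := above_placeOf M w P
  rw [resL_eq M w _ _ hab, Ideal.inertiaDeg_eq_of_isMaximal (IsLocalRing.maximalIdeal w.ring)]
  obtain ⟨j, hj⟩ := exists_resEquivB M w P
  let i : (w.ring ⧸ IsLocalRing.maximalIdeal w.ring) ≃+* (resHom M w _ _ hab).fieldRange :=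
    (AlgEquiv.ofInjectiveField (resHom M w _ _ hab)).toRingEquiv
  symm
  apply Algebra.finrank_eq_of_equiv_equiv i j
  ext a
  change algebraMap (resHom M w _ _ hab).fieldRange (placeOf M w P).resField
      (i (Ideal.Quotient.mk _ a)) =
    j (algebraMap (w.ring ⧸ IsLocalRing.maximalIdeal w.ring) (Bw M w ⧸ P.asIdeal)
      (Ideal.Quotient.mk _ a))
  rw [Ideal.Quotient.algebraMap_mk_of_liesOver, hj]
  rfl

end EF

/-- The ramification index of a place above `w` is unique. -/
theorem above_unique {K L M : Type} [Field K] [Field L] [Field M] [Algebra K L] [Algebra K M]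
    [Algebra L M] (w : Place K L) (v : Place K M) {m m' : ℕ} (h : Above w v m)
    (h' : Above w v m') : m = m' := by
  obtain ⟨π, hπ0, hπ, hπ1⟩ := exists_unif w
  have h1 := h.2 π
  have h2 := h'.2 π
  rw [h1, hπ] at h2
  simpa using h2

/-- KL-12-1. -/
theorem stEF : StEF := by
  classical
  intro K L M _ _ _ _ _ _ _ _ _ w
  haveI := ded_B M w
  haveI := frac_B M w
  haveI := fin_B M w
  haveI := faith_B M w
  let p := IsLocalRing.maximalIdeal w.ring
  haveI : Finite (p.primesOver (Bw M w)) := finite_primesOver _ _ (faith_B M w) p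
  letI : Fintype (p.primesOver (Bw M w)) := Fintype.ofFinite _
  have hp0 : p ≠ ⊥ := IsDiscreteValuationRing.not_a_field w.ring
  let F : p.primesOver (Bw M w) → HeightOneSpectrum (Bw M w) := fun q =>
    ⟨q.1, q.2.1, Ideal.ne_bot_of_mem_primesOver hp0 q.2⟩
  have hFinj : Function.Injective F := by
    intro q r h
    apply Subtype.ext
    exact congrArg HeightOneSpectrum.asIdeal h
  let e : Place K M → ℕ := fun v => if h : ∃ m, Above w v m then h.choose else 0
  have he : ∀ v m, Above w v m → e v = m := by
    intro v m h
    have h1 : ∃ m, Above w v m := ⟨m, h⟩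
    have h2 : e v = h1.choose := dif_pos h1
    rw [h2]
    exact above_unique w v h1.choose_spec h
  refine ⟨Finset.univ.image (fun q => placeOf M w (F q)), e, ?_, ?_, ?_⟩
  · intro v
    rw [Finset.mem_image]
    constructor
    · rintro ⟨q, -, rfl⟩
      exact ⟨_, above_placeOf M w (F q)⟩
    · rintro ⟨m, hm⟩
      obtain ⟨P, rfl⟩ := exists_placeOf M w v m hm
      exact ⟨⟨P.asIdeal, P.isPrime, liesOver_B M w P⟩, Finset.mem_univ _, rfl⟩
  · intro v hv
    rw [Finset.mem_image] at hv
    obtain ⟨q, -, rfl⟩ := hv
    rw [he _ _ (above_placeOf M w (F q))]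
    exact above_placeOf M w (F q)
  · rw [Finset.sum_image (fun a _ b _ h => hFinj (placeOf_injective M w h))]
    rw [← ef_abs w.ring L M p]
    refine Finset.sum_congr rfl fun q _ => ?_
    rw [he _ _ (above_placeOf M w (F q)), finrank_resL]

end Pool.Agent.Helper41.KL
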